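import Pool.Agent.Mg.Xeb915b.G35d17d
import Pool.Agent.Mg.Xeb915b.G3c44eb

namespace Pool.Agent.Results.MP_f23db5_lc.LeastSize

open Pool.Agent.MP_f23db5_lc

/-- The least number of elements of a relation algebra whose network satisfaction problem is not
in NP is 32; it is attained by the explicit algebra `alg`, whose problem is undecidable. -/
theorem result :
    IsLeast {n : ℕ | ∃ (A : Type) (_ : BooleanAlgebra A) (_ : Fintype A) (R : Ops A),
      IsRelAlg R ∧ Fintype.card A = n ∧
        ∃ code : A → ℕ, Function.Injective code ∧ NSP R code ∉ N68a2faeb.NP} 32 ∧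
    IsRelAlg alg ∧ ∀ code : Finset (Fin 5) → ℕ, Function.Injective code →
      ¬ Computable (NSP alg code) ∧ NSP alg code ∉ N68a2faeb.NP := by
  have h : ∀ code : Finset (Fin 5) → ℕ, Function.Injective code →
      ¬ Computable (NSP alg code) ∧ NSP alg code ∉ N68a2faeb.NP := fun _ hc =>
    ⟨not_computable hc, fun h => not_computable hc (primrec_of_NP h).to_comp⟩
  refine ⟨⟨?_, ?_⟩, isRelAlg_alg, h⟩
  · obtain ⟨code, hc⟩ := exists_injective_nat (Finset (Fin 5))
    exact ⟨Finset (Fin 5), inferInstance, inferInstance, alg, isRelAlg_alg, by simp, code, hc,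
      (h code hc).2⟩
  · rintro n ⟨A, _, _, R, hR, rfl, code, hc, hn⟩
    exact not_lt.1 fun hlt => hn (Low.np_small A R hR hlt code hc)

end Pool.Agent.Results.MP_f23db5_lc.LeastSize
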